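import Pool.Agent.Y248.FC.Stm

set_option autoImplicit false

/-!
Job Y248-FC SL of helper248: slicing, Fourier transform in some of the variables, on `E m × E k`.
-/

namespace Pool.Agent.Y363.FC

open MeasureTheory Set Metric Complex Filter
open scoped ENNReal RealInnerProductSpace Topology FourierTransform
open Pool.Agent.H789R2.FR (E sg T)
open Pool.Agent.Y248.BA (gh gh_planch)
open Pool.Agent.Y248.FB
open Pool.Agent.Y248.FC

noncomputable section

/-- splitting of the coordinates -/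
def ee (m k : ℕ) : E (m + k) ≃L[ℝ] E m × E k := EuclideanSpace.finAddEquivProd

variable {m k : ℕ}

theorem ee_fst (x : E (m + k)) (i : Fin m) : (ee m k x).1 i = x (Fin.castAdd k i) := rfl

theorem ee_snd (x : E (m + k)) (i : Fin k) : (ee m k x).2 i = x (Fin.natAdd m i) := rfl

theorem es_fst (a : E m) (b : E k) (i : Fin m) : (ee m k).symm (a, b) (Fin.castAdd k i) = a i := by
  rw [← ee_fst, ContinuousLinearEquiv.apply_symm_apply]

theorem es_snd (a : E m) (b : E k) (i : Fin k) : (ee m k).symm (a, b) (Fin.natAdd m i) = b i := by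
  rw [← ee_snd, ContinuousLinearEquiv.apply_symm_apply]

theorem ee_mp : MeasurePreserving (ee m k) := by
  have h1 := (LinearIsometryEquiv.piLpCongrLeft 2 ℝ ℝ
    (finSumFinEquiv (m := m) (n := k)).symm).measurePreserving
  have h2 := (PiLp.sumPiLpEquivProdLpPiLp 2 (fun _ : Fin m ⊕ Fin k => ℝ)
    : _ ≃ₗᵢ[ℝ] _).measurePreserving
  have h3 := WithLp.volume_preserving_ofLp (E m) (E k)
  exact h3.comp (h2.comp h1)

/-- the inverse of the splitting -/
@[irreducible] def es (m k : ℕ) (z : E m × E k) : E (m + k) := (ee m k).symm z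

theorem es_fun : es m k = (ee m k).symm := by
  funext z
  rw [es]

theorem es_mp : MeasurePreserving (es m k) := by
  rw [es_fun]
  have h := (ee_mp (m := m) (k := k))
  exact h.symm (e := (ee m k).toHomeomorph.toMeasurableEquiv)

theorem es_me : MeasurableEmbedding (es m k) := by
  rw [es_fun]
  exact (ee m k).symm.toHomeomorph.measurableEmbedding

theorem es_cont : Continuous (es m k) := by
  rw [es_fun]
  exact (ee m k).symm.continuous

theorem es_inner (a a' : E m) (b b' : E k) :
    ⟪es m k (a, b), es m k (a', b')⟫ = ⟪a, a'⟫ + ⟪b, b'⟫ := by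
  rw [es_fun, PiLp.inner_apply, PiLp.inner_apply, PiLp.inner_apply, Fin.sum_univ_add]
  simp only [es_fst, es_snd]

theorem es_norm (a : E m) (b : E k) : ‖es m k (a, b)‖ ^ 2 = ‖a‖ ^ 2 + ‖b‖ ^ 2 := by
  rw [← real_inner_self_eq_norm_sq, es_inner, real_inner_self_eq_norm_sq, real_inner_self_eq_norm_sq]

theorem es_le1 (a : E m) (b : E k) : ‖a‖ ≤ ‖es m k (a, b)‖ := by
  have := es_norm a b
  refine le_of_sq_le_sq ?_ (norm_nonneg _) |> fun h => h
  nlinarith [sq_nonneg ‖b‖]

theorem es_le2 (a : E m) (b : E k) : ‖b‖ ≤ ‖es m k (a, b)‖ := by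
  have := es_norm a b
  refine le_of_sq_le_sq ?_ (norm_nonneg _) |> fun h => h
  nlinarith [sq_nonneg ‖a‖]

theorem cyl_eq (ν : Measure (E k)) :
    cyl m ν = Measure.map (es m k) ((volume : Measure (E m)).prod ν) := by
  rw [es_fun]
  rfl

/-- the exponential -/
def ch {n : ℕ} (x ξ : E n) : ℂ := cexp (((2 * Real.pi * ⟪x, ξ⟫ : ℝ) : ℂ) * I)

theorem ch_norm {n : ℕ} (x ξ : E n) : ‖ch x ξ‖ = 1 := by
  unfold ch
  exact Complex.norm_exp_ofReal_mul_I _

theorem ch_cont {n : ℕ} : Continuous (fun p : E n × E n => ch p.1 p.2) := by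
  unfold ch
  fun_prop

theorem ch_split (a a' : E m) (b b' : E k) :
    ch (es m k (a, b)) (es m k (a', b')) = ch a a' * ch b b' := by
  unfold ch
  rw [← Complex.exp_add, es_inner]
  congr 1
  push_cast
  ring

theorem Fm_eq {n : ℕ} (g : E n → ℂ) (μ : Measure (E n)) (ξ : E n) :
    Fm g μ ξ = ∫ x, g x * ch x ξ ∂μ := rfl

/-- the Fourier transform in the first variables -/
def GG (g : E (m + k) → ℂ) (a : E m) (t : E k) : ℂ := ∫ a' : E m, g (es m k (a', t)) * ch a' a

theorem gh_eq {n : ℕ} (g : E n → ℂ) (ξ : E n) : gh g ξ = ∫ x, g x * ch x ξ := by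
  unfold gh
  rw [Real.fourier_eq']
  refine integral_congr_ae (Eventually.of_forall fun x => ?_)
  simp only [smul_eq_mul]
  rw [mul_comm]
  congr 1
  unfold ch
  congr 1
  rw [inner_neg_right]
  push_cast
  ring

section fin

variable {ν : Measure (E k)} (hν : ∀ (t : E k) (r : ℝ), ν (closedBall t r) < ∞)
include hν

theorem sfin : SigmaFinite ν := by
  have : IsLocallyFiniteMeasure ν :=
    ⟨fun t => ⟨closedBall t 1, closedBall_mem_nhds t one_pos, hν t 1⟩⟩
  infer_instance

theorem prod_fin (R : ℝ) :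
    ((volume : Measure (E m)).prod ν) {z | es m k z ∈ closedBall 0 R} < ∞ := by
  have := sfin hν
  refine lt_of_le_of_lt (measure_mono (t := (closedBall (0 : E m) R) ×ˢ (closedBall (0 : E k) R)) ?_) ?_
  · rintro ⟨a, b⟩ h
    simp only [mem_setOf_eq, mem_closedBall, dist_zero_right] at h
    simp only [mem_prod, mem_closedBall, dist_zero_right]
    exact ⟨(es_le1 a b).trans h, (es_le2 a b).trans h⟩
  · rw [Measure.prod_prod]
    exact ENNReal.mul_lt_top measure_closedBall_lt_top (hν 0 R)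

theorem integ {g : E (m + k) → ℂ} (hg : BB g) (ξ : E (m + k)) :
    Integrable (fun z => g (es m k z) * ch (es m k z) ξ)
      ((volume : Measure (E m)).prod ν) := by
  have := sfin hν
  obtain ⟨hm, ⟨M, hM⟩, R, hR⟩ := hg
  have hmeas : AEStronglyMeasurable (fun z => g (es m k z) * ch (es m k z) ξ)
      ((volume : Measure (E m)).prod ν) := by
    refine ((hm.comp es_cont.measurable).mul ?_).aestronglyMeasurable
    exact (ch_cont.comp (es_cont.prodMk continuous_const)).measurable
  have h1 : IntegrableOn (fun z => g (es m k z) * ch (es m k z) ξ)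
      {z | es m k z ∈ closedBall 0 R} ((volume : Measure (E m)).prod ν) := by
    refine Measure.integrableOn_of_bounded (M := M) (prod_fin hν R).ne hmeas ?_
    refine Eventually.of_forall fun z => ?_
    rw [norm_mul, ch_norm, mul_one]
    exact hM _
  refine h1.integrable_of_forall_notMem_eq_zero fun z hz => ?_
  rw [hR _ hz, zero_mul]

theorem Fm_split {g : E (m + k) → ℂ} (hg : BB g) (a : E m) (b : E k) :
    Fm g (cyl m ν) (es m k (a, b)) = Fm (GG g a) ν b := by
  have := sfin hν
  rw [Fm_eq, Fm_eq, cyl_eq, es_me.integral_map, integral_prod_symm _ (integ hν hg _)]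
  refine integral_congr_ae (Eventually.of_forall fun t => ?_)
  simp only
  unfold GG
  rw [← integral_mul_const]
  refine integral_congr_ae (Eventually.of_forall fun a' => ?_)
  simp only
  rw [ch_split]
  ring

omit hν in
theorem GG_meas {g : E (m + k) → ℂ} (hg : BB g) :
    StronglyMeasurable (fun z : E m × E k => GG g z.1 z.2) := by
  have h1 : StronglyMeasurable (fun p : (E m × E k) × E m =>
      g (es m k (p.2, p.1.2)) * ch p.2 p.1.1) := by
    refine (Measurable.mul ?_ ?_).stronglyMeasurable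
    · have hf : Measurable (fun p : (E m × E k) × E m => (p.2, p.1.2)) := by fun_prop
      exact hg.1.comp (es_cont.measurable.comp hf)
    · have hf : Continuous (fun p : (E m × E k) × E m => (p.2, p.1.1)) := by fun_prop
      exact (ch_cont.comp hf).measurable
  exact h1.integral_prod_right'

omit hν in
theorem GG_BB {g : E (m + k) → ℂ} (hg : BB g) (a : E m) : BB (GG g a) := by
  have hgm := GG_meas hg
  obtain ⟨hm, ⟨M, hM⟩, R, hR⟩ := hg
  refine ⟨?_, ⟨M * (volume : Measure (E m)).real (closedBall 0 R), fun t => ?_⟩, R, fun t ht => ?_⟩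
  · exact (hgm.measurable.comp measurable_prodMk_left : Measurable fun t => GG g a t)
  · have h1 : GG g a t = ∫ a' in closedBall (0 : E m) R, g (es m k (a', t)) * ch a' a := by
      unfold GG
      symm
      refine setIntegral_eq_integral_of_forall_compl_eq_zero fun a' ha' => ?_
      rw [hR, zero_mul]
      intro h
      apply ha'
      rw [mem_closedBall, dist_zero_right] at h ⊢
      exact (es_le1 a' t).trans h
    rw [h1]
    refine norm_setIntegral_le_of_norm_le_const measure_closedBall_lt_top fun a' _ => ?_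
    rw [norm_mul, ch_norm, mul_one]
    exact hM _
  · unfold GG
    have : ∀ a' : E m, g (es m k (a', t)) * ch a' a = 0 := by
      intro a'
      rw [hR, zero_mul]
      intro h
      apply ht
      rw [mem_closedBall, dist_zero_right] at h ⊢
      exact (es_le2 a' t).trans h
    simp only [this, integral_zero]

omit hν in
theorem slice_planch {g : E (m + k) → ℂ} (hg : BB g) (t : E k) :
    ∫⁻ a : E m, ‖GG g a t‖ₑ ^ (2 : ℝ) = ∫⁻ a : E m, ‖g (es m k (a, t))‖ₑ ^ (2 : ℝ) := by
  obtain ⟨hm, ⟨M, hM⟩, R, hR⟩ := hg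
  set h : E m → ℂ := fun a => g (es m k (a, t)) with hh
  have hmeas : Measurable h := hm.comp (es_cont.measurable.comp (by fun_prop))
  have hb : ∃ M : ℝ, ∀ x, ‖h x‖ ≤ M := ⟨M, fun x => hM _⟩
  have hs : ∀ x, x ∉ closedBall (0 : E m) R → h x = 0 := by
    intro x hx
    apply hR
    intro h'
    apply hx
    rw [mem_closedBall, dist_zero_right] at h' ⊢
    exact (es_le1 x t).trans h'
  have hi : Integrable h := Pool.Agent.Y248.BA.integrable_ball hmeas hb hs
  have h2 : MemLp h 2 := by
    rw [memLp_two_iff_integrable_sq_norm hmeas.aestronglyMeasurable]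
    have hb2 : ∃ M' : ℝ, ∀ x, ‖((‖h x‖ ^ 2 : ℝ) : ℂ)‖ ≤ M' := ⟨M ^ 2, fun x => by
      rw [Complex.norm_real, Real.norm_eq_abs, abs_of_nonneg (by positivity)]
      have := hM (es m k (x, t))
      gcongr⟩
    have := Pool.Agent.Y248.BA.integrable_ball (h := fun x => ((‖h x‖ ^ 2 : ℝ) : ℂ))
      (v := (0 : E m)) (ρ := R) (by fun_prop) hb2 (fun x hx => by simp [hs x hx])
    simpa only [RCLike.re_eq_complex_re, Complex.ofReal_re] using this.re
  rw [← gh_planch hi h2]
  refine lintegral_congr fun a => ?_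
  rw [gh_eq]
  rfl

end fin

theorem t_sl (m k : ℕ) : S_SL m k := by
  intro γ K ν hν hAnn ρ hρ g hg
  have := sfin hν
  set Sh : Set (E (m + k)) := {ξ | |‖ξ‖ ^ 2 - 1| ≤ 1 / ρ} with hSh
  have hShm : MeasurableSet Sh := by
    refine measurableSet_le ?_ measurable_const
    fun_prop
  set S2 : Set (E m × E k) := {z | es m k z ∈ Sh} with hS2
  have hS2m : MeasurableSet S2 := es_cont.measurable hShm
  set F : E m × E k → ℝ≥0∞ := S2.indicator (fun z => ‖Fm (GG g z.1) ν z.2‖ₑ ^ (2 : ℝ)) with hF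
  -- measurability
  have hFmm : StronglyMeasurable (fun z : E m × E k => Fm (GG g z.1) ν z.2) := by
    have h1 : StronglyMeasurable (fun p : (E m × E k) × E k => GG g p.1.1 p.2 * ch p.2 p.1.2) := by
      refine StronglyMeasurable.mul ?_ ?_
      · have hf : Measurable (fun p : (E m × E k) × E k => (p.1.1, p.2)) := by fun_prop
        exact (GG_meas hg).comp_measurable hf
      · have hf : Continuous (fun p : (E m × E k) × E k => (p.2, p.1.2)) := by fun_prop
        exact (ch_cont.comp hf).stronglyMeasurable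
    exact h1.integral_prod_right'
  have hFm : Measurable F := by
    exact (hFmm.enorm.pow_const _).indicator hS2m
  -- change of variables
  have h1 : ∫⁻ ξ in Sh, ‖Fm g (cyl m ν) ξ‖ₑ ^ (2 : ℝ) = ∫⁻ z : E m × E k, F z := by
    rw [← lintegral_indicator hShm, ← (es_mp (m := m) (k := k)).lintegral_comp_emb es_me]
    refine lintegral_congr fun z => ?_
    obtain ⟨a, b⟩ := z
    rw [hF]
    by_cases hz : es m k (a, b) ∈ Sh
    · rw [indicator_of_mem hz, indicator_of_mem (show (a, b) ∈ S2 from hz), Fm_split hν hg]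
    · rw [indicator_of_notMem hz, indicator_of_notMem (show (a, b) ∉ S2 from hz)]
  -- the slices
  have h2 : ∀ a : E m, ∫⁻ b : E k, F (a, b) ≤
      ENNReal.ofReal (K * ρ ^ (-γ)) * ∫⁻ t, ‖GG g a t‖ₑ ^ (2 : ℝ) ∂ν := by
    intro a
    have h3 := hAnn (1 - ‖a‖ ^ 2) (by nlinarith [sq_nonneg ‖a‖]) ρ hρ (GG g a) (GG_BB hg a)
    refine le_trans (le_of_eq ?_) h3
    have hm2 : MeasurableSet {η : E k | |‖η‖ ^ 2 - (1 - ‖a‖ ^ 2)| ≤ 1 / ρ} := by
      refine measurableSet_le ?_ measurable_const
      fun_prop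
    rw [← lintegral_indicator hm2]
    refine lintegral_congr fun b => ?_
    have hiff : (a, b) ∈ S2 ↔ b ∈ {η : E k | |‖η‖ ^ 2 - (1 - ‖a‖ ^ 2)| ≤ 1 / ρ} := by
      rw [hS2, mem_setOf_eq, hSh, mem_setOf_eq, mem_setOf_eq, es_norm]
      rw [show ‖a‖ ^ 2 + ‖b‖ ^ 2 - 1 = ‖b‖ ^ 2 - (1 - ‖a‖ ^ 2) by ring]
    rw [hF]
    by_cases hz : (a, b) ∈ S2
    · rw [indicator_of_mem hz, indicator_of_mem (hiff.1 hz)]
    · rw [indicator_of_notMem hz, indicator_of_notMem (fun h => hz (hiff.2 h))]
  rw [h1, Measure.volume_eq_prod, lintegral_prod _ hFm.aemeasurable]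
  refine (lintegral_mono h2).trans ?_
  rw [lintegral_const_mul' _ _ ENNReal.ofReal_ne_top]
  refine mul_le_mul_right ?_ _
  -- exchange
  have hGm : Measurable (fun z : E m × E k => ‖GG g z.1 z.2‖ₑ ^ (2 : ℝ)) :=
    (GG_meas hg).enorm.pow_const _
  have h4 : ∫⁻ a : E m, ∫⁻ t, ‖GG g a t‖ₑ ^ (2 : ℝ) ∂ν = ∫⁻ t, (∫⁻ a : E m, ‖GG g a t‖ₑ ^ (2 : ℝ)) ∂ν :=
    lintegral_lintegral_swap hGm.aemeasurable
  rw [h4]
  have h5 : ∫⁻ x, ‖g x‖ₑ ^ (2 : ℝ) ∂(cyl m ν) =
      ∫⁻ t, (∫⁻ a : E m, ‖g (es m k (a, t))‖ₑ ^ (2 : ℝ)) ∂ν := by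
    rw [cyl_eq, es_me.lintegral_map, lintegral_prod_symm']
    exact (hg.1.comp es_cont.measurable).enorm.pow_const _
  rw [h5]
  refine le_of_eq (lintegral_congr fun t => ?_)
  exact slice_planch hg t

end

end Pool.Agent.Y363.FC
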